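import Pool.Agent.W845.TR.Base

set_option autoImplicit false

namespace Pool.Agent.W395.TR.AWF

open Pool.Agent.W845.TR
open scoped BigOperators

lemma card_box (d L : ℕ) : (box d L).card = (2 * L + 1) ^ d := by
  unfold box
  rw [Pi.card_Icc]
  simp only [Int.card_Icc]
  rw [Finset.prod_const, Finset.card_univ, Fintype.card_fin]
  congr 1
  omega

lemma shell (d L : ℕ) (h1 : 1 ≤ d) (h2 : d ≤ 2) :
    ((box d (L + 1) \ box d L).card : ℝ) ≤ 8 * Real.sqrt ((box d L).card : ℝ) := by
  rw [Finset.card_sdiff_of_subset (box_mono (Nat.le_succ L)), card_box, card_box]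
  have hd : d = 1 ∨ d = 2 := by omega
  rcases hd with rfl | rfl
  · have e : (2 * (L + 1) + 1) ^ 1 - (2 * L + 1) ^ 1 = 2 := by
      rw [pow_one, pow_one]; omega
    rw [e]
    have h3 : (1 : ℝ) ≤ Real.sqrt (((2 * L + 1) ^ 1 : ℕ) : ℝ) := by
      rw [Real.one_le_sqrt]
      rw [pow_one]
      have : 1 ≤ 2 * L + 1 := by omega
      exact_mod_cast this
    push_cast at h3 ⊢
    linarith
  · have e : (2 * (L + 1) + 1) ^ 2 - (2 * L + 1) ^ 2 = 8 * L + 8 := by
      have : (2 * (L + 1) + 1) ^ 2 = (2 * L + 1) ^ 2 + (8 * L + 8) := by ring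
      rw [this, Nat.add_sub_cancel_left]
    rw [e]
    have h3 : Real.sqrt (((2 * L + 1) ^ 2 : ℕ) : ℝ) = 2 * L + 1 := by
      push_cast
      rw [Real.sqrt_sq (by positivity)]
    rw [h3]
    push_cast
    have : (0 : ℝ) ≤ L := Nat.cast_nonneg L
    linarith

/-- the perturbation -/
noncomputable def cf (d L : ℕ) (x : S d) : ℝ := if x ∈ box d L then (sg x : ℝ) else 0

lemma sg_sq {d : ℕ} (x : S d) : (sg x : ℝ) * (sg x : ℝ) = 1 := by
  unfold sg
  split_ifs <;> norm_num

lemma abs_cf (d L : ℕ) (x : S d) : |cf d L x| ≤ 1 := by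
  unfold cf sg
  split_ifs <;> norm_num

lemma Ex_weight {d : ℕ} (q q' : S d → ℝ) (E : Finset (S d)) (h : ∀ x ∈ E, q x = q' x)
    (f : Finset (S d) → ℝ) : Ex q E f = Ex q' E f := by
  unfold Ex
  apply Finset.sum_congr rfl
  intro A _
  congr 1
  unfold wt
  apply Finset.prod_congr rfl
  intro x hx
  rw [h x hx]

lemma Ex_near {d : ℕ} (q : S d → ℝ) (D : Finset (S d)) (hq : ∀ x ∈ D, 0 ≤ q x ∧ q x ≤ 1)
    (f : Finset (S d) → ℝ) (a b : ℝ) (h : ∀ A ⊆ D, |f A - a| ≤ b) : |Ex q D f - a| ≤ b := by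
  rw [abs_le]
  have h1 : Ex q D f ≤ Ex q D (fun _ => a + b) :=
    Ex_mono q D _ _ hq fun A hA => by have := abs_le.1 (h A hA); linarith
  have h2 : Ex q D (fun _ => a - b) ≤ Ex q D f :=
    Ex_mono q D _ _ hq fun A hA => by have := abs_le.1 (h A hA); linarith
  rw [Ex_const] at h1 h2
  constructor <;> linarith

lemma claim1 (hAW2 : St_AW2) {d L N M : ℕ} (hLN : L + 1 ≤ N) (hLM : L ≤ M) (p t : ℝ)
    (hp : 0 ≤ p ∧ p ≤ 1) (hq : ∀ x ∈ box d M, 0 ≤ p + t * cf d L x ∧ p + t * cf d L x ≤ 1) :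
    |Ex (fun x => p + t * cf d L x) (box d M) (fun A => (FF (box d N) A : ℝ)) -
      Ex (fun x => p + 0 * cf d L x) (box d M) (fun A => (FF (box d N) A : ℝ))| ≤
      8 * ((box d (L + 1) \ box d L).card : ℝ) := by
  have hsub : box d L ⊆ box d M := box_mono hLM
  have e : box d M = (box d M \ box d L) ∪ box d L := (Finset.sdiff_union_of_subset hsub).symm
  have hdis : Disjoint (box d M \ box d L) (box d L) := Finset.sdiff_disjoint
  have hE : ∀ x ∈ box d M \ box d L, p + t * cf d L x = p + 0 * cf d L x := by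
    intro x hx
    have : cf d L x = 0 := if_neg (Finset.mem_sdiff.1 hx).2
    rw [this, mul_zero, mul_zero]
  have hq0 : ∀ x ∈ box d M, 0 ≤ p + 0 * cf d L x ∧ p + 0 * cf d L x ≤ 1 := by
    intro x _
    rw [zero_mul, add_zero]
    exact hp
  have key : ∀ (q : S d → ℝ), (∀ x ∈ box d M, 0 ≤ q x ∧ q x ≤ 1) → ∀ A ⊆ box d M \ box d L,
      |Ex q (box d L) (fun A' => (FF (box d N) (A ∪ A') : ℝ)) - (FF (box d N) A : ℝ)| ≤
        4 * ((box d (L + 1) \ box d L).card : ℝ) := by
    intro q hq A _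
    apply Ex_near q (box d L) (fun x hx => hq x (hsub hx))
    intro A' hA'
    have h1 := hAW2 d L N (A ∪ A') A hLN (by
      intro x hx
      rw [Finset.mem_union]
      constructor
      · rintro (h | h)
        · exact h
        · exact absurd (hA' h) hx
      · intro h; exact Or.inl h)
    exact_mod_cast h1
  have e1 : ∀ q : S d → ℝ, Ex q (box d M) (fun A => (FF (box d N) A : ℝ)) =
      Ex q (box d M \ box d L) (fun A => Ex q (box d L)
        (fun A' => (FF (box d N) (A ∪ A') : ℝ))) := by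
    intro q
    conv_lhs => rw [e]
    rw [Ex_union q _ _ hdis]
  rw [e1, e1]
  rw [Ex_weight _ _ (box d M \ box d L) hE]
  rw [← Ex_sub]
  have h0 := Ex_near (fun x => p + 0 * cf d L x) (box d M \ box d L)
    (fun x hx => hq0 x (Finset.mem_sdiff.1 hx).1)
    (fun A => Ex (fun x => p + t * cf d L x) (box d L) (fun A' => (FF (box d N) (A ∪ A') : ℝ)) -
      Ex (fun x => p + 0 * cf d L x) (box d L) (fun A' => (FF (box d N) (A ∪ A') : ℝ))) 0
    (8 * ((box d (L + 1) \ box d L).card : ℝ)) (by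
      intro A hA
      have h1 := abs_le.1 (key (fun x => p + t * cf d L x) hq A hA)
      have h2 := abs_le.1 (key (fun x => p + 0 * cf d L x) hq0 A hA)
      rw [sub_zero, abs_le]
      constructor <;> linarith [h1.1, h1.2, h2.1, h2.2])
  rwa [sub_zero] at h0

/-- the local influence -/
noncomputable def U {d : ℕ} (Lam : Finset (S d)) (x : S d) (A : Finset (S d)) : ℝ :=
  (sg x : ℝ) * ((FF Lam (A.erase x) : ℝ) - (FF Lam (insert x A) : ℝ))

lemma deriv_eq (hDER : St_DER) {d L N M : ℕ} (hLM : L ≤ M) (p t : ℝ) :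
    HasDerivAt (fun t => Ex (fun x => p + t * cf d L x) (box d M)
      (fun A => (FF (box d N) A : ℝ)))
      (-Ex (fun x => p + t * cf d L x) (box d M)
        (fun A => ∑ x ∈ box d L, U (box d N) x A)) t := by
  have h := hDER d (fun _ => p) (cf d L) (box d M) (fun A => (FF (box d N) A : ℝ)) t
  have hsub : box d L ⊆ box d M := box_mono hLM
  have e : (∑ x ∈ box d M, cf d L x * Ex (fun x => p + t * cf d L x) (box d M)
      (fun A => (FF (box d N) (insert x A) : ℝ) - (FF (box d N) (A.erase x) : ℝ))) =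
      -Ex (fun x => p + t * cf d L x) (box d M)
        (fun A => ∑ x ∈ box d L, U (box d N) x A) := by
    rw [Ex_sum, ← Finset.sum_neg_distrib]
    rw [← Finset.sum_subset hsub (fun x _ hx => by
      have : cf d L x = 0 := if_neg hx
      rw [this, zero_mul])]
    apply Finset.sum_congr rfl
    intro x hx
    have hcx : cf d L x = (sg x : ℝ) := if_pos hx
    rw [hcx, ← Ex_mul_left, ← neg_one_mul, ← Ex_mul_left]
    apply Ex_congr
    intro A _
    unfold U
    ring
  rw [← e]
  exact h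

open Classical in
theorem awf : St_AW1 → St_AW2 → St_DER → St_CSI → St_MEAN → St_LLN → St_AWF := by
  intro hAW1 hAW2 hDER hCSI hMEAN hLLN d p hd1 hd2 hp0 hp1 ε hε
  by_contra hcon
  push Not at hcon
  -- the infimum
  have hbdd : BddBelow (Set.range fun r => mr d p r) := ⟨ε, by rintro _ ⟨r, rfl⟩; exact hcon r⟩
  obtain ⟨m, hmdef⟩ : ∃ m, m = ⨅ r, mr d p r := ⟨_, rfl⟩
  have hm_le : ∀ r, m ≤ mr d p r := fun r => by rw [hmdef]; exact ciInf_le hbdd r
  have hm : 0 < m := lt_of_lt_of_le hε (by rw [hmdef]; exact le_ciInf hcon)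
  have hm_ex : ∀ η : ℝ, 0 < η → ∃ r, mr d p r < m + η := fun η hη =>
    exists_lt_of_ciInf_lt (by rw [← hmdef]; linarith)
  -- constants
  obtain ⟨K, hK⟩ : ∃ K : ℝ, K = 1000 / m := ⟨_, rfl⟩
  have hK0 : 0 < K := by rw [hK]; positivity
  have hpp : 0 < p * (1 - p) := mul_pos hp0 (by linarith)
  obtain ⟨E0, hE0⟩ : ∃ E0 : ℝ, E0 = K ^ 2 / (2 * (p * (1 - p))) := ⟨_, rfl⟩
  obtain ⟨e1, he1⟩ : ∃ e1 : ℝ, e1 = (Real.exp (-E0) / 4) ^ 2 := ⟨_, rfl⟩
  have he1pos : 0 < e1 := by rw [he1]; positivity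
  have hsq : Real.exp E0 * Real.sqrt e1 = 1 / 4 := by
    rw [he1, Real.sqrt_sq (by positivity), ← mul_div_assoc, ← Real.exp_add, add_neg_cancel,
      Real.exp_zero]
  obtain ⟨r, hr⟩ := hm_ex (m * e1 / 16) (by positivity)
  obtain ⟨th, hth⟩ : ∃ th : ℝ, th = min p (1 - p) / 2 := ⟨_, rfl⟩
  have hth0 : 0 < th := by rw [hth]; exact div_pos (lt_min hp0 (by linarith)) two_pos
  obtain ⟨L, hL⟩ : ∃ L : ℕ, (K / th) ^ 2 + 128 * (8 * r + 9) ^ d / (m ^ 2 * e1) ≤ L :=
    exists_nat_ge _
  obtain ⟨V, hV⟩ : ∃ V : ℝ, V = ((box d L).card : ℝ) := ⟨_, rfl⟩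
  have hVL : (L : ℝ) ≤ V := by
    rw [hV, card_box]
    have h1 : L ≤ (2 * L + 1) ^ d := by
      calc L ≤ 2 * L + 1 := by omega
        _ = (2 * L + 1) ^ 1 := (pow_one _).symm
        _ ≤ (2 * L + 1) ^ d := Nat.pow_le_pow_right (by omega) hd1
    exact_mod_cast h1
  have hV0 : 0 < V := by
    rw [hV, card_box]
    positivity
  have hVK : (K / th) ^ 2 ≤ V := by
    have : 0 ≤ 128 * (8 * (r : ℝ) + 9) ^ d / (m ^ 2 * e1) := by positivity
    linarith
  have hVr : 128 * (8 * (r : ℝ) + 9) ^ d / (m ^ 2 * e1) ≤ V := by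
    have : 0 ≤ (K / th) ^ 2 := by positivity
    linarith
  have hsV : 0 < Real.sqrt V := Real.sqrt_pos.2 hV0
  have hsV2 : Real.sqrt V * Real.sqrt V = V := Real.mul_self_sqrt hV0.le
  obtain ⟨t0, ht0⟩ : ∃ t0 : ℝ, t0 = K / Real.sqrt V := ⟨_, rfl⟩
  have ht0pos : 0 < t0 := by rw [ht0]; positivity
  have ht0th : t0 ≤ th := by
    rw [ht0, div_le_iff₀ hsV]
    have h1 : K / th ≤ Real.sqrt V := by
      apply Real.le_sqrt_of_sq_le
      exact hVK
    rw [div_le_iff₀ hth0] at h1
    linarith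
  -- boxes
  obtain ⟨N, hN⟩ : ∃ N : ℕ, N = L + 2 * r + 2 := ⟨_, rfl⟩
  obtain ⟨n0, hn0⟩ : ∃ n0 : ℕ, n0 = (box d N).card := ⟨_, rfl⟩
  obtain ⟨M, hM⟩ : ∃ M : ℕ, M = N + 2 * n0 + 2 := ⟨_, rfl⟩
  have hLM : L ≤ M := by omega
  obtain ⟨Sf, hSf⟩ : ∃ Sf : Finset (S d) → ℝ, Sf = fun A => ∑ x ∈ box d L, U (box d N) x A :=
    ⟨_, rfl⟩
  obtain ⟨Tf, hTf⟩ : ∃ Tf : Finset (S d) → ℝ, Tf = fun A => ∑ x ∈ box d L,
    (if Und r x A then (1 : ℝ) else 0) := ⟨_, rfl⟩
  have hprob : ∀ x ∈ box d M, (0 : ℝ) ≤ (fun _ : S d => p) x ∧ (fun _ : S d => p) x ≤ 1 :=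
    fun x _ => ⟨hp0.le, hp1.le⟩
  -- bounds on the influences
  have hxLam : ∀ x ∈ box d L, x ∈ box d N ∧ nb x ⊆ box d N := by
    intro x hx
    refine ⟨box_mono (by omega) hx, ?_⟩
    intro y hy
    have h1 := mem_nb.1 hy
    exact ball_box (r := 1) (by omega) hx (by rw [adj_iff] at h1; rw [h1]; norm_num)
  have hU0 : ∀ x ∈ box d L, ∀ A, 0 ≤ U (box d N) x A := by
    intro x hx A
    have h1 := (hAW1 d (box d N) A x (hxLam x hx).1 (hxLam x hx).2).1
    unfold U
    exact_mod_cast h1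
  have hU1 : ∀ x ∈ box d L, ∀ A, U (box d N) x A ≤ (if Und r x A then (1 : ℝ) else 0) := by
    intro x hx A
    obtain ⟨-, h2, -, h4⟩ := hAW1 d (box d N) A x (hxLam x hx).1 (hxLam x hx).2
    by_cases hu : Und r x A
    · rw [if_pos hu]
      unfold U
      exact_mod_cast h2
    · rw [if_neg hu]
      have h5 := h4 r (fun y hy => ball_box (r := 2 * r + 2) (by omega) hx
        (by push_cast; exact hy)) hu
      unfold U
      have h6 : (sg x : ℝ) * ((FF (box d N) (A.erase x) : ℝ) -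
          (FF (box d N) (insert x A) : ℝ)) = 0 := by exact_mod_cast h5
      exact h6.le
  have hU2 : ∀ x ∈ box d L, ∀ A, (if Und n0 x A then (1 : ℝ) else 0) ≤ U (box d N) x A := by
    intro x hx A
    obtain ⟨-, -, h3, -⟩ := hAW1 d (box d N) A x (hxLam x hx).1 (hxLam x hx).2
    by_cases hu : Und n0 x A
    · rw [if_pos hu]
      rw [hn0] at hu
      have h5 := h3 hu
      unfold U
      have h6 : (sg x : ℝ) * ((FF (box d N) (A.erase x) : ℝ) -
          (FF (box d N) (insert x A) : ℝ)) = 1 := by exact_mod_cast h5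
      exact h6.ge
    · rw [if_neg hu]
      exact hU0 x hx A
  have hST : ∀ A, Sf A ≤ Tf A := by
    intro A
    rw [hSf, hTf]
    exact Finset.sum_le_sum fun x hx => hU1 x hx A
  have hS0 : ∀ A, 0 ≤ Sf A := by
    intro A
    rw [hSf]
    exact Finset.sum_nonneg fun x hx => hU0 x hx A
  -- expectations
  have hES : V * m ≤ Ex (fun _ => p) (box d M) Sf := by
    have h1 : Ex (fun _ => p) (box d M) (fun A => ∑ x ∈ box d L,
        (if Und n0 x A then (1 : ℝ) else 0)) ≤ Ex (fun _ => p) (box d M) Sf := by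
      apply Ex_mono _ _ _ _ hprob
      intro A _
      rw [hSf]
      exact Finset.sum_le_sum fun x hx => hU2 x hx A
    refine le_trans ?_ h1
    rw [Ex_sum]
    have h2 : ∀ x ∈ box d L, m ≤ Ex (fun _ => p) (box d M)
        (fun A => if Und n0 x A then (1 : ℝ) else 0) := by
      intro x hx
      have h3 := hMEAN d n0 M p x (fun y hy => ball_box (r := 2 * n0 + 1) (by omega) hx
        (by push_cast; exact hy))
      have h4 := hm_le n0
      rw [← h3] at h4
      exact h4
    calc V * m = ∑ x ∈ box d L, m := by rw [Finset.sum_const, nsmul_eq_mul, hV]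
      _ ≤ _ := Finset.sum_le_sum h2
  have hET : Ex (fun _ => p) (box d M) Tf = V * mr d p r := by
    rw [hTf, Ex_sum]
    have h2 : ∀ x ∈ box d L, Ex (fun _ => p) (box d M)
        (fun A => if Und r x A then (1 : ℝ) else 0) = mr d p r := by
      intro x hx
      exact hMEAN d r M p x (fun y hy => ball_box (r := 2 * r + 1) (by omega) hx
        (by push_cast; exact hy))
    rw [Finset.sum_congr rfl h2, Finset.sum_const, nsmul_eq_mul, hV]
  -- claim 2
  have hmV : 0 < m * V / 8 := by positivity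
  have claim2 : Pr (fun _ => p) (box d M) (fun A => Sf A < 3 / 4 * (m * V)) ≤ e1 := by
    have h1 : Pr (fun _ => p) (box d M) (fun A => Sf A < 3 / 4 * (m * V)) ≤
        Pr (fun _ => p) (box d M) (fun A => (m * V / 8) ^ 2 ≤ (Tf A - V * mr d p r) ^ 2 ∨
          m * V / 8 ≤ Tf A - Sf A) := by
      apply Pr_mono _ _ _ _ hprob
      intro A _ hA
      by_cases h2 : m * V / 8 ≤ Tf A - Sf A
      · exact Or.inr h2
      · left
        push Not at h2
        have h3 : Tf A < 7 / 8 * (m * V) := by linarith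
        have h4 : m * V ≤ V * mr d p r := by
          rw [mul_comm m V]
          exact mul_le_mul_of_nonneg_left (hm_le r) hV0.le
        have h5 : m * V / 8 ≤ V * mr d p r - Tf A := by linarith
        have h6 : (Tf A - V * mr d p r) ^ 2 = (V * mr d p r - Tf A) ^ 2 := by ring
        rw [h6]
        exact pow_le_pow_left₀ hmV.le h5 2
    refine le_trans h1 (le_trans (Pr_or _ _ _ _ hprob) ?_)
    have h2 : Pr (fun _ => p) (box d M)
        (fun A => (m * V / 8) ^ 2 ≤ (Tf A - V * mr d p r) ^ 2) ≤ e1 / 2 := by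
      refine le_trans (Pr_markov _ _ (fun A => (Tf A - V * mr d p r) ^ 2) _ hprob
        (fun A _ => sq_nonneg _) (by positivity)) ?_
      have h3 := hLLN d r L M p hp0.le hp1.le (by omega)
      have h4 : Ex (fun _ => p) (box d M) (fun A => (Tf A - V * mr d p r) ^ 2) ≤
          V * (8 * r + 9) ^ d := by
        rw [hTf, hV]
        exact h3
      rw [div_le_iff₀ (by positivity)]
      refine le_trans h4 ?_
      rw [div_le_iff₀ (by positivity)] at hVr
      have h5 : e1 / 2 * (m * V / 8) ^ 2 = V * (V * (m ^ 2 * e1) / 128) := by ring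
      rw [h5]
      apply mul_le_mul_of_nonneg_left _ hV0.le
      linarith
    have h3 : Pr (fun _ => p) (box d M) (fun A => m * V / 8 ≤ Tf A - Sf A) ≤ e1 / 2 := by
      refine le_trans (Pr_markov _ _ (fun A => Tf A - Sf A) _ hprob
        (fun A _ => by linarith [hST A]) hmV) ?_
      rw [Ex_sub, hET, div_le_iff₀ hmV]
      have h4 : V * mr d p r ≤ V * (m + m * e1 / 16) := mul_le_mul_of_nonneg_left hr.le hV0.le
      have h5 : e1 / 2 * (m * V / 8) = V * (m * e1 / 16) := by ring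
      rw [h5]
      have h6 : V * (m + m * e1 / 16) = V * m + V * (m * e1 / 16) := by ring
      linarith
    linarith
  -- probabilities stay in the unit interval
  have hqt : ∀ t, 0 ≤ t → t ≤ t0 → ∀ x ∈ box d M,
      0 ≤ p + t * cf d L x ∧ p + t * cf d L x ≤ 1 := by
    intro t ht ht' x _
    have h1 : |t * cf d L x| ≤ th := by
      rw [abs_mul, abs_of_nonneg ht]
      calc t * |cf d L x| ≤ t * 1 := mul_le_mul_of_nonneg_left (abs_cf d L x) ht
        _ ≤ th := by linarith
    have h2 := abs_le.1 h1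
    have h3 : th ≤ p := by
      rw [hth]
      have := min_le_left p (1 - p)
      have h4 : 0 < min p (1 - p) := lt_min hp0 (by linarith)
      linarith
    have h4 : th ≤ 1 - p := by
      rw [hth]
      have := min_le_right p (1 - p)
      have h4 : 0 < min p (1 - p) := lt_min hp0 (by linarith)
      linarith
    constructor <;> linarith [h2.1, h2.2]
  -- claim 3
  have claim3 : ∀ t, 0 ≤ t → t ≤ t0 →
      m * V / 2 ≤ Ex (fun x => p + t * cf d L x) (box d M) Sf := by
    intro t ht ht'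
    have h1 := hCSI d p (box d M) (fun x => t * cf d L x)
      (fun A => if Sf A < 3 / 4 * (m * V) then (1 : ℝ) else 0) hp0 hp1 (hqt t ht ht')
      (fun A => by split_ifs <;> norm_num)
    have h2 : (∑ x ∈ box d M, (t * cf d L x) ^ 2) ≤ K ^ 2 := by
      have h3 : (∑ x ∈ box d M, (t * cf d L x) ^ 2) = t ^ 2 * V := by
        rw [← Finset.sum_subset (box_mono hLM) (fun x _ hx => by
          have : cf d L x = 0 := if_neg hx
          rw [this, mul_zero]; norm_num)]
        have h4 : ∀ x ∈ box d L, (t * cf d L x) ^ 2 = t ^ 2 := by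
          intro x hx
          have : cf d L x = (sg x : ℝ) := if_pos hx
          rw [this, mul_pow, pow_two (sg x : ℝ), sg_sq, mul_one]
        rw [Finset.sum_congr rfl h4, Finset.sum_const, nsmul_eq_mul, hV, mul_comm]
      rw [h3]
      have h5 : t ^ 2 ≤ t0 ^ 2 := pow_le_pow_left₀ ht ht' 2
      calc t ^ 2 * V ≤ t0 ^ 2 * V := mul_le_mul_of_nonneg_right h5 hV0.le
        _ = K ^ 2 := by
          rw [ht0, div_pow, Real.sq_sqrt hV0.le]
          field_simp
    have h3 : Ex (fun _ => p) (box d M)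
        (fun A => (if Sf A < 3 / 4 * (m * V) then (1 : ℝ) else 0) ^ 2) ≤ e1 := by
      refine le_trans (le_of_eq ?_) claim2
      unfold Pr
      apply Ex_congr
      intro A _
      split_ifs <;> norm_num
    have h4 : Ex (fun x => p + t * cf d L x) (box d M)
        (fun A => if Sf A < 3 / 4 * (m * V) then (1 : ℝ) else 0) ≤ 1 / 4 := by
      refine le_trans h1 ?_
      rw [← hsq]
      apply mul_le_mul
      · apply Real.exp_le_exp.2
        rw [hE0]
        exact div_le_div_of_nonneg_right h2 (by positivity)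
      · exact Real.sqrt_le_sqrt h3
      · exact Real.sqrt_nonneg _
      · exact (Real.exp_pos _).le
    have h5 : Ex (fun x => p + t * cf d L x) (box d M)
        (fun A => 3 / 4 * (m * V) - 3 / 4 * (m * V) *
          (if Sf A < 3 / 4 * (m * V) then (1 : ℝ) else 0)) ≤
        Ex (fun x => p + t * cf d L x) (box d M) Sf := by
      apply Ex_mono _ _ _ _ (hqt t ht ht')
      intro A _
      split_ifs with h6
      · have := hS0 A
        linarith
      · linarith
    rw [Ex_sub, Ex_const, Ex_mul_left] at h5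
    have h6 : 3 / 4 * (m * V) * Ex (fun x => p + t * cf d L x) (box d M)
        (fun A => if Sf A < 3 / 4 * (m * V) then (1 : ℝ) else 0) ≤ 3 / 4 * (m * V) * (1 / 4) :=
      mul_le_mul_of_nonneg_left h4 (by positivity)
    have h7 : 0 < m * V := by positivity
    linarith
  -- conclusion
  have hder : ∀ t, HasDerivAt (fun t => Ex (fun x => p + t * cf d L x) (box d M)
      (fun A => (FF (box d N) A : ℝ)))
      (-Ex (fun x => p + t * cf d L x) (box d M) Sf) t := by
    intro t
    rw [hSf]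
    exact deriv_eq hDER hLM p t
  obtain ⟨s, hs, hs2⟩ := exists_hasDerivAt_eq_slope (fun t => Ex (fun x => p + t * cf d L x)
      (box d M) (fun A => (FF (box d N) A : ℝ)))
      (fun t => -Ex (fun x => p + t * cf d L x) (box d M) Sf) ht0pos
      (fun t _ => (hder t).continuousAt.continuousWithinAt) (fun t _ => hder t)
  rw [sub_zero, eq_div_iff ht0pos.ne'] at hs2
  have h1 := claim3 s hs.1.le hs.2.le
  have h2 := claim1 hAW2 (L := L) (N := N) (M := M) (d := d) (by omega) hLM p t0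
    ⟨hp0.le, hp1.le⟩ (hqt t0 ht0pos.le le_rfl)
  have h3 := shell d L hd1 hd2
  rw [← hV] at h3
  rw [← hs2] at h2
  have h4 : m * V / 2 * t0 ≤ Ex (fun x => p + s * cf d L x) (box d M) Sf * t0 :=
    mul_le_mul_of_nonneg_right h1 ht0pos.le
  have h5 : m * V / 2 * t0 = 500 * Real.sqrt V := by
    rw [ht0, hK]
    have : V = Real.sqrt V * Real.sqrt V := hsV2.symm
    rw [div_div]
    calc m * V / 2 * (1000 / (m * Real.sqrt V)) = 500 * (V / Real.sqrt V) * (m / m) := by
          field_simp; norm_num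
      _ = 500 * Real.sqrt V := by
          rw [div_self hm.ne', mul_one, Real.div_sqrt]
  have h6 := abs_le.1 h2
  nlinarith [h6.1]

end Pool.Agent.W395.TR.AWF
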